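import Pool.Agent.V11273.PV.G15
import Pool.Agent.Y776.AxJ.Nome

/-!
# The modular Schanuel conjecture with derivatives, with exponentials: almost all points of all analytic curves

Let `τ_1, …, τ_p`, `p ≥ 1`, be nonconstant analytic functions of one variable `x` on a connected open set `U`, with values
in the upper half-plane, such that `j(τ_i)` and `j(τ_k)` are algebraically independent over `ℂ` for `i ≠ k`, and let
`w_1, …, w_s` be analytic functions on `U` such that no nontrivial combination of them with integral coefficients is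
constant. No other condition: the curve in `ℍ^p × ℂ^s` may be algebraic, or given by exponentials, elliptic or modular
functions, by the inverse function of `j`, by solutions of differential equations, etc. The modular Schanuel conjecture with
derivatives and special points, together with Schanuel's conjecture (special cases of the generalised period conjecture),
predicts that in general the `4 p + 2 s` numbers

  `τ_i(x)`, `j(τ_i(x))`, `j'(τ_i(x))`, `j''(τ_i(x))`, `w_k(x)`, `exp(w_k(x))`

generate a field of transcendence degree at least `3 p + s`, also over the field generated by `2 π i` (if the `w_k` are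
independent of `2 π i`) and by the values `j'(σ_l)` at inequivalent special points `σ_l` with `j'(σ_l) ≠ 0`. For several
curves and points `x_c` the bound is the sum `∑ (3 p_c + s_c)`.

We prove this in bounded degree and height for almost all tuples of points `x_c` with coordinates in a number field: one
can choose `3 p_c + s_c` of the functions such that, outside of few tuples, the chosen numbers satisfy no polynomial relation
of bounded degree and height, not even with coefficients which are combinations of arbitrary complex numbers `ξ_i` (for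
instance of the monomials up to a given degree in `2 π i` and the numbers `j'(σ_l)`). The degrees of the relations, of the
number fields, the exponents of the heights, etc. are bounded by `ω T`, where `T` is the height of the points and `ω T → ∞`.
For example for `s = p` and `w_i = 2 π i τ_i` one has `4 p` independent numbers.
-/

set_option autoImplicit false

open Filter NumberField

namespace Pool.Agent.Results.MP_5e64e7_nt.AllAnalyticCurves

/-- The lattice `ℤ + ℤ τ`. -/
noncomputable def lattice (τ : ℂ) (h : 0 < τ.im) : PeriodPair where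
  ω₁ := 1
  ω₂ := τ
  indep := (Pool.Agent.Y685.LL ⟨τ, h⟩).indep

/-- The modular invariant `j = 1728 g₂³ / (g₂³ - 27 g₃²)` on the upper half-plane. -/
noncomputable def j (τ : ℂ) : ℂ :=
  if h : 0 < τ.im then 1728 * (lattice τ h).g₂ ^ 3 / ((lattice τ h).g₂ ^ 3 - 27 * (lattice τ h).g₃ ^ 2) else 0

/-- The names of the functions. -/
inductive Name (p s : ℕ) : Type
  | tau : Fin p → Name p s
  | j : Fin p → Name p s
  | dj : Fin p → Name p s
  | ddj : Fin p → Name p s
  | w : Fin s → Name p s
  | exp : Fin s → Name p s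

/-- The values `τ_i(z)`, `j(τ_i(z))`, `j'(τ_i(z))`, `j''(τ_i(z))` (complex derivatives of `j`), `w_k(z)`, `exp(w_k(z))`. -/
noncomputable def value {p s : ℕ} (τ : Fin p → ℂ → ℂ) (w : Fin s → ℂ → ℂ) (z : ℂ) : Name p s → ℂ
  | Name.tau i => τ i z
  | Name.j i => j (τ i z)
  | Name.dj i => deriv j (τ i z)
  | Name.ddj i => deriv (deriv j) (τ i z)
  | Name.w k => w k z
  | Name.exp k => Complex.exp (w k z)

/-- An analytic curve in `ℍ^p × ℂ^s`. -/
structure Curve (U : Set ℂ) {p s : ℕ} (τ : Fin p → ℂ → ℂ) (w : Fin s → ℂ → ℂ) : Prop where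
  pos : 0 < p
  isOpen : IsOpen U
  isPreconnected : IsPreconnected U
  nonempty : U.Nonempty
  analytic : ∀ i, AnalyticOnNhd ℂ (τ i) U
  im_pos : ∀ i, ∀ z ∈ U, 0 < (τ i z).im
  nonconstant : ∀ i, ∀ c : ℂ, ∃ z ∈ U, τ i z ≠ c
  /-- two of the functions `j(τ_i)` are algebraically independent over `ℂ` -/
  independent : ∀ i k, i ≠ k → ∀ P : MvPolynomial (Fin 2) ℂ, P ≠ 0 →
    ∃ z ∈ U, MvPolynomial.eval ![j (τ i z), j (τ k z)] P ≠ 0
  analytic_w : ∀ k, AnalyticOnNhd ℂ (w k) U
  /-- no nontrivial combination of the `w_k` with integral coefficients is constant -/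
  linear : ∀ m : Fin s → ℤ, m ≠ 0 → ∀ c : ℂ, ∃ z ∈ U, ∑ k, (m k : ℂ) * w k z ≠ c

theorem j_eq {τ : ℂ} (h : 0 < τ.im) : j τ = Pool.Agent.Y776.jf τ := by
  have h1 : Pool.Agent.Y685.LC τ = lattice τ h := by
    rw [Pool.Agent.Y685.LC, UpperHalfPlane.ofComplex_apply_of_im_pos h]
    rfl
  rw [j, dif_pos h, Pool.Agent.Y776.jf, h1]

theorem j_ev {τ : ℂ} (h : 0 < τ.im) : j =ᶠ[nhds τ] Pool.Agent.Y776.jf := by
  filter_upwards [Pool.Agent.Y776.AxJ.isOpen_H.mem_nhds h] with σ hσ
  exact j_eq hσ

theorem dj_eq {τ : ℂ} (h : 0 < τ.im) : deriv j τ = deriv Pool.Agent.Y776.jf τ := (j_ev h).deriv_eq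

theorem dj_ev {τ : ℂ} (h : 0 < τ.im) : deriv j =ᶠ[nhds τ] deriv Pool.Agent.Y776.jf := by
  filter_upwards [Pool.Agent.Y776.AxJ.isOpen_H.mem_nhds h] with σ hσ
  exact dj_eq hσ

theorem ddj_eq {τ : ℂ} (h : 0 < τ.im) : deriv (deriv j) τ = deriv (deriv Pool.Agent.Y776.jf) τ := (dj_ev h).deriv_eq

theorem fmj {U : Set ℂ} {p s : ℕ} {τ : Fin p → ℂ → ℂ} {w : Fin s → ℂ → ℂ} (h : Curve U τ w) :
    Pool.Agent.Y776.AxJ.Fmj U τ w where
  op := h.isOpen
  conn := h.isPreconnected
  ne := h.nonempty
  ta := h.analytic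
  im := h.im_pos
  nc := h.nonconstant
  ji := by
    intro i k hik P hP
    by_contra hne
    obtain ⟨z, hz, hz0⟩ := h.independent i k hik P hne
    apply hz0
    rw [← hP z hz]
    congr 2
    funext m
    fin_cases m
    · exact j_eq (h.im_pos i z hz)
    · exact j_eq (h.im_pos k z hz)
  wa := h.analytic_w
  wi := by
    intro m c hc
    by_contra hm
    obtain ⟨z, hz, hne⟩ := h.linear m hm c
    exact hne (hc z hz)

/-- the names -/
def mn {p s : ℕ} : Name p s → Pool.Agent.Y776.AxJ.Nj p s := fun o => match o with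
  | Name.tau i => Sum.inl (i, 0)
  | Name.j i => Sum.inl (i, 1)
  | Name.dj i => Sum.inl (i, 2)
  | Name.ddj i => Sum.inl (i, 3)
  | Name.w k => Sum.inr (Sum.inl k)
  | Name.exp k => Sum.inr (Sum.inr k)

/-- the names -/
def nm {p s : ℕ} : Pool.Agent.Y776.AxJ.Nj p s → Name p s := fun o => match o with
  | Sum.inl (i, 0) => Name.tau i
  | Sum.inl (i, 1) => Name.j i
  | Sum.inl (i, 2) => Name.dj i
  | Sum.inl (i, 3) => Name.ddj i
  | Sum.inr (Sum.inl k) => Name.w k
  | Sum.inr (Sum.inr k) => Name.exp k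

/-- the names -/
def eqv (p s : ℕ) : Pool.Agent.Y776.AxJ.Nj p s ≃ Name p s where
  toFun := nm
  invFun := mn
  left_inv := by
    rintro (⟨i, m⟩ | k | k)
    · fin_cases m <;> rfl
    · rfl
    · rfl
  right_inv := by
    rintro (i | i | i | i | i | i) <;> rfl

noncomputable instance (p s : ℕ) : Fintype (Name p s) := Fintype.ofEquiv _ (eqv p s)

noncomputable instance (p s : ℕ) : DecidableEq (Name p s) := Classical.decEq _

theorem value_eq {U : Set ℂ} {p s : ℕ} {τ : Fin p → ℂ → ℂ} {w : Fin s → ℂ → ℂ} (h : Curve U τ w) {z : ℂ} (hz : z ∈ U)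
    (o : Pool.Agent.Y776.AxJ.Nj p s) : value τ w z (nm o) = Pool.Agent.Y776.AxJ.yj τ w o z := by
  rcases o with ⟨i, m⟩ | k | k
  · fin_cases m
    · rfl
    · exact j_eq (h.im_pos i z hz)
    · exact dj_eq (h.im_pos i z hz)
    · exact ddj_eq (h.im_pos i z hz)
  · rfl
  · rfl

theorem value_an {U : Set ℂ} {p s : ℕ} {τ : Fin p → ℂ → ℂ} {w : Fin s → ℂ → ℂ} (h : Curve U τ w) (o : Name p s) :
    AnalyticOnNhd ℂ (fun z => value τ w z o) U := by
  have h1 : nm (mn o) = o := (eqv p s).right_inv o
  refine (Pool.Agent.Y776.AxJ.yj_an (fmj h) (mn o)).congr h.isOpen fun z hz => ?_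
  have h2 := value_eq h hz (mn o)
  rw [h1] at h2
  exact h2.symm

/-- `3 p + s` independent functions -/
theorem value_loc {U : Set ℂ} {p s : ℕ} {τ : Fin p → ℂ → ℂ} {w : Fin s → ℂ → ℂ} (h : Curve U τ w) :
    ∃ e : Fin (3 * p + s) → Name p s, Function.Injective e ∧
      ∀ t ∈ U, Pool.Agent.Y124.LocInd (fun k z => value τ w z (e k)) t := by
  obtain ⟨e, he, hL⟩ := Pool.Agent.Y776.AxJ.exists_loc (fmj h) h.pos
  refine ⟨fun k => nm (e k), (eqv p s).injective.comp he, fun t ht P hP => hL t ht P ?_⟩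
  filter_upwards [hP, h.isOpen.mem_nhds ht] with z hz hzU
  rw [← hz]
  congr 2
  funext o
  rcases o with _ | k
  · rfl
  · exact (value_eq h hzU (e k)).symm

/-- quotients of two integers of `K`, all conjugates of which are at most `T` -/
def HeightLe (K : Type) [Field K] [NumberField K] (T : ℝ) (x : K) : Prop :=
  ∃ a b : 𝓞 K, b ≠ 0 ∧ house (a : K) ≤ T ∧ house (b : K) ≤ T ∧ x = a / b

/-- `S` is covered by at most `m` hypersurfaces of degree at most `D` -/
def CoveredBy {X : Type} (D m : ℕ) (S : Set (X → ℂ)) : Prop :=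
  ∃ Φ : Finset (MvPolynomial X ℂ), Φ.card ≤ m ∧ (∀ P ∈ Φ, P ≠ 0 ∧ P.totalDegree ≤ D) ∧
    ∀ x ∈ S, ∃ P ∈ Φ, MvPolynomial.eval x P = 0

/-- the points of norm at most `k` at distance at least `1 / k` from the complement of `U` -/
def Inner {X : Type} [Fintype X] (U : Set (X → ℂ)) (k : ℕ) : Set (X → ℂ) :=
  {z | ‖z‖ ≤ k ∧ Metric.ball z (k : ℝ)⁻¹ ⊆ U}

/-- the partial degrees of `P` are at most `k`, and its coefficients are `∑ ξ i * c i`, `i < k`, where the `c i` are
integers of `K`, all conjugates of which are at most `T ^ k` -/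
def Small {σ : Type} (K : Type) [Field K] [NumberField K] (io : K →+* ℂ) (k : ℕ) (ξ : Fin k → ℂ) (T : ℝ)
    (P : MvPolynomial σ ℂ) : Prop :=
  (∀ y, P.degreeOf y ≤ k) ∧ ∀ m, ∃ c : Fin k → 𝓞 K, (∀ i (φ : K →+* ℂ), ‖φ (c i : K)‖ ≤ T ^ (k : ℝ)) ∧
    P.coeff m = ∑ i, ξ i * io (c i : K)

section
variable {κ : Type} [Fintype κ] {p s : κ → ℕ}

/-- The exceptional tuples `x` of elements of `K`: they are of height at most `T`, in the compact set `Inner (∏ U c) k`, and
some nonzero small polynomial vanishes at the values at `x c` of the functions in `A c`, for all curves `c` together. -/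
def Exceptional (U : κ → Set ℂ) (τ : ∀ c, Fin (p c) → ℂ → ℂ) (w : ∀ c, Fin (s c) → ℂ → ℂ)
    (A : ∀ c, Finset (Name (p c) (s c))) (K : Type) [Field K] [NumberField K] (io : K →+* ℂ) (k : ℕ) (ξ : Fin k → ℂ)
    (T : ℝ) : Set (κ → K) :=
  {x | (∀ c, HeightLe K T (x c)) ∧ (fun c => io (x c)) ∈ Inner {z : κ → ℂ | ∀ c, z c ∈ U c} k ∧
    ∃ P : MvPolynomial (Σ c, A c) ℂ, Small K io k ξ T P ∧
      MvPolynomial.eval (fun a => value (τ a.1) (w a.1) (io (x a.1)) a.2.1) P = 0 ∧ P ≠ 0}

/-- Let `(τ_c, w_c)`, `c` in a finite nonempty set, be analytic curves in `ℍ^(p_c) × ℂ^(s_c)`. There are sets `A_c` of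
`3 p_c + s_c` of the `4 p_c + 2 s_c` functions and there is `ω → ∞` such that for all large `T`, all number fields `K` of degree
at most `ω T`, embedded in `ℂ`, and all complex numbers `ξ i`, `i < ω T`, the set of the exceptional tuples lies on at most
`T ^ (1 / ω T)` hypersurfaces of degree at most `T ^ (1 / ω T)`, and has at most `T ^ (1 / ω T) * N ^ (n - 1)` elements, where
`n` is the number of the curves and `N` is the number of the elements of `K` of height at most `T`. For all other tuples of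
elements of `K` of height at most `T` (in `Inner (∏ U_c) (ω T)`) the `∑ (3 p_c + s_c)` numbers given by the sets `A_c` satisfy
no nonzero polynomial relation of partial degrees at most `ω T` with coefficients `∑ ξ i * a i`, `a i` integers of `K` of size
at most `T ^ ω T`. -/
theorem result [Nonempty κ] [DecidableEq κ] (U : κ → Set ℂ) (τ : ∀ c, Fin (p c) → ℂ → ℂ) (w : ∀ c, Fin (s c) → ℂ → ℂ)
    (hC : ∀ c, Curve (U c) (τ c) (w c)) :
    ∃ A : ∀ c, Finset (Name (p c) (s c)), (∀ c, (A c).card = 3 * p c + s c) ∧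
    ∃ (ω : ℝ → ℕ) (T₀ : ℝ), Tendsto ω atTop atTop ∧ Monotone ω ∧ ∀ T, T₀ ≤ T → 0 < ω T ∧
      ∀ (K : Type) [Field K] [NumberField K], Module.finrank ℚ K ≤ ω T → ∀ (io : K →+* ℂ) (ξ : Fin (ω T) → ℂ),
        CoveredBy ⌊T ^ ((ω T : ℝ)⁻¹)⌋₊ ⌊T ^ ((ω T : ℝ)⁻¹)⌋₊
          ((fun x c => io (x c)) '' Exceptional U τ w A K io (ω T) ξ T) ∧
        (Exceptional U τ w A K io (ω T) ξ T).Finite ∧
        ((Exceptional U τ w A K io (ω T) ξ T).ncard : ℝ) ≤
          T ^ ((ω T : ℝ)⁻¹) * ({x : K | HeightLe K T x}.ncard : ℝ) ^ (Fintype.card κ - 1) :=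
  Pool.Agent.V11273.PV.main_choose (N := fun c => Name (p c) (s c)) (y := fun c v z => value (τ c) (w c) z v)
    (fun c => (hC c).isPreconnected) (fun c => (hC c).isOpen) (fun c => (hC c).nonempty)
    (fun c v => value_an (hC c) v) (fun c => value_loc (hC c))

end

end Pool.Agent.Results.MP_5e64e7_nt.AllAnalyticCurves
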