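import Pool.Agent.Helper264.NT.NearK2
import Pool.Agent.Y771.KF.MSN

/-!
# All tuples of nomes near all points outside of a set of dimension `n - 1`

For points `z_k = log x_k / (2πi)` with nomes `x_k = exp (2πi z_k)` in a number field, the modular Schanuel conjecture
with derivatives says that the field generated by the `z_k` and the `j (z_k)`, `j' (z_k)`, `j'' (z_k)` has transcendence
degree at least `3 n` (for multiplicatively independent `x_k`), and one expects that the `4 n + 1` numbers `π`, `log x_k`,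
`j (z_k)`, `D j (z_k)`, `D² j (z_k)` (`D = (1/2πi) d/dz`) are algebraically independent.

A counting result of this pool (`AlmostAllRationalNomes`) says that most of the rational tuples with denominators at most
`T` in a box satisfy no relation of bounded degree and height; it allows `C T ^ (2 (n - 1) + β)` exceptions and says
nothing about the tuples near a given point. Here there are no exceptional tuples: we find one set `E` of points of
`ℝ ^ n`, of Hausdorff dimension at most `n - 1` (of `ℂ ^ n`, dimension at most `2 (n - 1)`), such that for all `y` outside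
of `E`, all number fields `K`, all degrees `d`, all `A` and ALL exponents `w > 0` (arbitrarily small), no tuple `x` in
`K ^ n` of height at most `T` with `|x - y| ≤ T ^ (-w)` satisfies a relation, even an approximate one, of degree at most
`d` and height at most `T ^ A`, if `T` is large. For `w < 1` and every real `y` there are such rational tuples for all
large `T`. The bound for the dimension in `ℝ ^ n` is sharp: if `y_1 = y_2` then there are rational tuples with `x_1 = x_2`
near `y`, so `E` contains these hyperplanes.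

Proof: the exceptional tuples lie on `C T ^ ε` hypersurfaces of degree at most `D` (`Pool.Agent.Y771.KF.stdK` of helper771
and helper124, with the algebraic independence of the functions, Mahler). The new part: the zeros of any nonzero
polynomial of degree at most `D` in a ball are covered by `C δ ^ (-s)` balls of radius `δ`, for every `s > n - 1`
(`s > 2 (n - 1)`), where `C` depends only on `n`, `D` and `s` (`Pool.Agent.Helper264.NT.cov_zeros`: dimension of one zero
set, compactness of the space of polynomials, and self-similarity), so that the points near exceptional tuples form a set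
of dimension at most `n - 1` (`2 (n - 1)`).
-/

set_option autoImplicit false

open Height
open scoped ENNReal

namespace Pool.Agent.Results.MP_5e64e7_nt.NearEveryPoint

/-- the normalised Eisenstein series of weight `4` -/
noncomputable def E4 (τ : ℂ) : ℂ :=
  1 + 240 * ∑' m : ℕ, ((ArithmeticFunction.sigma 3 (m + 1) : ℕ) : ℂ) *
    Complex.exp (2 * (Real.pi : ℂ) * Complex.I * τ) ^ (m + 1)

/-- the normalised Eisenstein series of weight `6` -/
noncomputable def E6 (τ : ℂ) : ℂ :=
  1 - 504 * ∑' m : ℕ, ((ArithmeticFunction.sigma 5 (m + 1) : ℕ) : ℂ) *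
    Complex.exp (2 * (Real.pi : ℂ) * Complex.I * τ) ^ (m + 1)

/-- the modular invariant `j = q⁻¹ + 744 + 196884 q + ⋯` -/
noncomputable def j (τ : ℂ) : ℂ := 1728 * E4 τ ^ 3 / (E4 τ ^ 3 - E6 τ ^ 2)

/-- the point `z = log x / (2πi)` of the upper half-plane, `exp (2πi z) = x`, for `0 < |x| < 1` -/
noncomputable def z (x : ℂ) : ℂ := Complex.log x / (2 * (Real.pi : ℂ) * Complex.I)

/-- `log x`, `j (z)`, `D j (z)`, `D² j (z)`, where `D = (1/2πi) d/dz` -/
noncomputable def four (x : ℂ) : Fin 4 → ℂ :=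
  ![Complex.log x, j (z x), deriv j (z x) / (2 * (Real.pi : ℂ) * Complex.I),
    deriv (deriv j) (z x) / (2 * (Real.pi : ℂ) * Complex.I) ^ 2]

/-- the `4 n + 1` numbers `π` and `log x_k`, `j (z_k)`, `D j (z_k)`, `D² j (z_k)` -/
noncomputable def numbers {n : ℕ} (x : Fin n → ℂ) (i : Option (Fin n × Fin 4)) : ℂ :=
  i.elim (Real.pi : ℂ) fun p => four (x p.1) p.2

/-- every nonzero polynomial in `4 n + 1` variables with coefficients in `K` of height at most `T ^ A`, of degree at most
`d` in each variable, takes at the `4 n + 1` numbers of the tuple `x` of elements of `K` (embedded in `ℂ` by `τ`) a value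
of absolute value greater than `T ^ (-B)` -/
def NoRelation {n : ℕ} {K : Type} [Field K] [NumberField K] (τ : K →+* ℂ) (d : ℕ) (A B T : ℝ) (x : Fin n → K) : Prop :=
  ∀ P : MvPolynomial (Option (Fin n × Fin 4)) K, P ≠ 0 → (∀ i, P.degreeOf i ≤ d) →
    (∀ s, mulHeight₁ (P.coeff s) ≤ T ^ A) → T ^ (-B) < ‖MvPolynomial.eval₂ τ (numbers fun k => τ (x k)) P‖

/-- Let `n ≥ 1`.
1. There is a subset `E` of `ℝ ^ n` of Hausdorff dimension at most `n - 1` such that for all `y` in `(0, 1) ^ n` outside
of `E`, all real number fields `K`, all `d`, `A` and `w > 0` there are `B` and `T₀` such that for all `T ≥ T₀` all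
`n`-tuples `x` of elements of `K` of height at most `T` with `|x_k - y_k| ≤ T ^ (-w)` have no relation.
2. The same for complex number fields and all `y` in `ℂ ^ n` with `|y_k| < 1`, `y_k` not on `(-1, 0]`, outside of a subset
`E` of `ℂ ^ n` of dimension at most `2 (n - 1)`. -/
theorem result (n : ℕ) (hn : 1 ≤ n) :
    (∃ E : Set (Fin n → ℝ), dimH E ≤ ((n - 1 : ℕ) : ℝ≥0∞) ∧ ∀ y ∉ E, (∀ k, 0 < y k ∧ y k < 1) →
      ∀ (K : IntermediateField ℚ ℝ) [NumberField K] (d : ℕ) (A w : ℝ), 0 < w → ∃ B T₀ : ℝ, ∀ T ≥ T₀,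
        ∀ x : Fin n → K, (∀ k, mulHeight₁ (x k) ≤ T ∧ |(x k : ℝ) - y k| ≤ T ^ (-w)) →
          NoRelation (Complex.ofRealHom.comp (algebraMap K ℝ)) d A B T x) ∧
    ∃ E : Set (Fin n → ℂ), dimH E ≤ ((2 * (n - 1) : ℕ) : ℝ≥0∞) ∧ ∀ y ∉ E, (∀ k, y k ∈ Complex.slitPlane ∧ ‖y k‖ < 1) →
      ∀ (K : IntermediateField ℚ ℂ) [NumberField K] (d : ℕ) (A w : ℝ), 0 < w → ∃ B T₀ : ℝ, ∀ T ≥ T₀,
        ∀ x : Fin n → K, (∀ k, mulHeight₁ (x k) ≤ T ∧ ‖(x k : ℂ) - y k‖ ≤ T ^ (-w)) →
          NoRelation (algebraMap K ℂ) d A B T x := by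
  have hnn : Nonempty (Fin n) := ⟨⟨0, hn⟩⟩
  refine ⟨?_, ?_⟩
  · have hind : Pool.Agent.Y771.KF.AIndepS Pool.Agent.TH21.MS.fJ (Set.Ioo (0 : ℝ) 1) := by
      have h : Pool.Agent.Y124.AIndep Pool.Agent.TH21.MS.fJ (1 / 4) (1 / 2) :=
        Pool.Agent.Y771.KF.aindep_of_rindep _ _ _ fun d =>
          Pool.Agent.TH21.MS.mahler d _ _ (by norm_num) (by norm_num) (by norm_num)
      intro P hP
      exact h P fun t ht => hP t ⟨by linarith [ht.1], by linarith [ht.2]⟩
    obtain ⟨E, hE1, hE2⟩ := Pool.Agent.Helper264.NT.mainK (𝕜 := ℝ) (X := Fin n) Complex.ofRealHom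
      (fun a => (Complex.norm_real a).symm) (fun _ : Fin n => Pool.Agent.TH21.MS.fJ) (fun _ : Unit => Real.pi)
      (fun _ => Set.Ioo (0 : ℝ) 1) (fun _ => isOpen_Ioo) (fun _ => isPreconnected_Ioo)
      (fun _ i => Pool.Agent.TH21.MS.fJ_an i) (fun _ => hind) Pool.Agent.Y124.goodXi_pi
    refine ⟨E, by simpa using hE1, fun y hy hy01 K _ d A w hw => ?_⟩
    obtain ⟨B, T0, h⟩ := hE2 y hy hy01 K d A w hw
    -- the points lie in `(0, 1)` for large `T`
    obtain ⟨ρ, hρ, hρy⟩ : ∃ ρ : ℝ, 0 < ρ ∧ ∀ k, ρ ≤ y k ∧ ρ ≤ 1 - y k := by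
      obtain ⟨M, hM⟩ := (Finset.image (fun k => max (y k)⁻¹ (1 - y k)⁻¹) Finset.univ).exists_le
      refine ⟨(max M 1)⁻¹, by positivity, fun k => ?_⟩
      have h1 := hM _ (Finset.mem_image_of_mem _ (Finset.mem_univ k))
      have h2 : (0 : ℝ) < max M 1 := lt_max_of_lt_right one_pos
      refine ⟨?_, ?_⟩
      · rw [inv_le_comm₀ h2 (hy01 k).1]
        exact (le_max_left _ _).trans (h1.trans (le_max_left _ _))
      · rw [inv_le_comm₀ h2 (by linarith [(hy01 k).2])]
        exact (le_max_right _ _).trans (h1.trans (le_max_left _ _))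
    refine ⟨B, max (max 1 T0) ((2 / ρ) ^ (1 / w)), fun T hT x hx => ?_⟩
    have hT1 : 1 ≤ T := le_trans (le_trans (le_max_left _ _) (le_max_left _ _)) hT
    have hTT0 : T0 ≤ T := le_trans (le_trans (le_max_right _ _) (le_max_left _ _)) hT
    have hTM : (2 / ρ) ^ (1 / w) ≤ T := le_trans (le_max_right _ _) hT
    have hTpos : 0 < T := by linarith
    have hρ2 : 0 < 2 / ρ := by positivity
    have hTw : T ^ (-w) < ρ := by
      have h1 : 2 / ρ ≤ T ^ w := by
        have h2 := Real.rpow_le_rpow (Real.rpow_nonneg hρ2.le _) hTM hw.le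
        rwa [← Real.rpow_mul hρ2.le, one_div_mul_cancel hw.ne', Real.rpow_one] at h2
      rw [Real.rpow_neg hTpos.le, inv_lt_comm₀ (Real.rpow_pos_of_pos hTpos _) hρ]
      refine lt_of_lt_of_le ?_ h1
      rw [inv_eq_one_div]
      exact div_lt_div_of_pos_right (by norm_num) hρ
    have hx01 : ∀ k, (x k : ℝ) ∈ Set.Ioo (0 : ℝ) 1 := by
      intro k
      have h1 := abs_le.1 ((hx k).2)
      exact ⟨by linarith [h1.1, (hρy k).1], by linarith [h1.2, (hρy k).2]⟩
    have h3 := Pool.Agent.Helper264.NT.norel_rename (Equiv.optionEquivSumPUnit (Fin n × Fin 4)) (algebraMap K ℝ)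
      (fun _ : Fin n => Pool.Agent.TH21.MS.fJ) (fun _ : Unit => Real.pi) d A B T x (h T hTT0 x hx)
      (fun k => (hx k).1) (fun w => w.elim Real.pi fun c => Pool.Agent.TH21.MS.fJ c.2 (x c.1)) (by
        intro w
        cases w <;> rfl)
    refine Pool.Agent.Helper264.NT.norel_real (algebraMap K ℝ) _ _ ?_ d A B T h3
    intro w
    cases w with
    | none => rfl
    | some c =>
      have h4 := Pool.Agent.TH21.MS.four_eq (x c.1 : ℝ) (hx01 c.1) c.2
      have h5 : Complex.log ((x c.1 : ℝ) : ℂ) = ((Real.log (x c.1 : ℝ) : ℝ) : ℂ) :=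
        (Complex.ofReal_log (hx01 c.1).1.le).symm
      refine Eq.trans ?_ h4
      change four ((x c.1 : ℝ) : ℂ) c.2 = _
      unfold four z Pool.Agent.TH21.MS.four Pool.Agent.TH21.MS.zx
      rw [h5]
      rfl
  · obtain ⟨E, hE1, hE2⟩ := Pool.Agent.Helper264.NT.mainK (𝕜 := ℂ) (X := Fin n) (RingHom.id ℂ)
      (fun a => rfl) (fun _ : Fin n => fun (i : Fin 4) (x : ℂ) => Pool.Agent.Y771.KF.fourC x i) (fun _ : Unit => Real.pi)
      (fun _ => Pool.Agent.Y771.KF.slitDisc) (fun _ => Complex.isOpen_slitPlane.inter Metric.isOpen_ball)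
      (fun _ => Pool.Agent.Y771.KF.preconn_slit)
      (fun _ i => Pool.Agent.Y771.KF.fourC_an i) (fun _ => Pool.Agent.Y771.KF.fourC_ind) Pool.Agent.Y124.goodXi_pi
    refine ⟨E, by simpa using hE1, fun y hy hy01 K _ d A w hw => ?_⟩
    obtain ⟨B, T0, h⟩ := hE2 y hy (fun k => ⟨(hy01 k).1, mem_ball_zero_iff.2 (hy01 k).2⟩) K d A w hw
    refine ⟨B, T0, fun T hT x hx => ?_⟩
    refine Pool.Agent.Helper264.NT.norel_rename (Equiv.optionEquivSumPUnit (Fin n × Fin 4)) (algebraMap K ℂ)
      _ (fun _ : Unit => Real.pi) d A B T x (h T hT x hx) (fun k => (hx k).1) _ ?_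
    intro w
    cases w <;> rfl

end Pool.Agent.Results.MP_5e64e7_nt.NearEveryPoint
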