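import Pool.Agent.Helper264.NT.NearPV2
import Pool.Agent.V11273.PV.G15
import Pool.Agent.Y776.AxJ.Nome

/-!
# The modular Schanuel conjecture with derivatives in bounded degree and height at ALL algebraic points near almost every
point, for products of arbitrary analytic curves

Let `(τ_c, w_c) : U_c → ℍ^(p_c) × ℂ^(s_c)`, `c` in a finite nonempty set, be analytic curves: the `τ_{c,i}` are not constant, the
`j(τ_{c,i})` for different `i` are pairwise algebraically independent over `ℂ`, and no nontrivial combination of the `w_{c,k}`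
with integral coefficients is constant. One can choose `3 p_c + s_c` of the `4 p_c + 2 s_c` functions `τ`, `j(τ)`, `j'(τ)`,
`j''(τ)`, `w`, `exp(w)` for all `c` with the following property, `d` being the number of the curves. There is a set `E` in
`ℂ^d` of Hausdorff dimension at most `2 d - 2` such that near every point `z` of the product of the `U_c` outside of `E` there
are no exceptional points: for all `δ > 0` (arbitrarily small), all number fields `K` and all `k`, for large `T`, for ALL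
`d`-tuples `x` of elements of `K` of height at most `T` at distance at most `T ^ (-δ)` from `z` the chosen
`∑ (3 p_c + s_c)` numbers at the points `x_c` satisfy no nonzero polynomial relation of partial degrees at most `k` with
coefficients `∑ ξ i * c i`, `i < k`, `c i` integers of `K` of size at most `T ^ k`, `ξ i` any given complex numbers (for instance
monomials in special points and in values of `j, j', j''` there). For real points `z` the same holds outside of a set in `ℝ^d`
of dimension at most `d - 1`.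
-/

set_option autoImplicit false

open Filter NumberField
open scoped ENNReal

namespace Pool.Agent.Results.MP_5e64e7_nt.NearEveryPointAllCurves

/-- The lattice `ℤ + ℤ τ`. -/
noncomputable def lattice (τ : ℂ) (h : 0 < τ.im) : PeriodPair where
  ω₁ := 1
  ω₂ := τ
  indep := (Pool.Agent.Y685.LL ⟨τ, h⟩).indep

/-- The modular invariant `j = 1728 g₂³ / (g₂³ - 27 g₃²)` on the upper half-plane. -/
noncomputable def j (τ : ℂ) : ℂ :=
  if h : 0 < τ.im then 1728 * (lattice τ h).g₂ ^ 3 / ((lattice τ h).g₂ ^ 3 - 27 * (lattice τ h).g₃ ^ 2) else 0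

/-- The names of the functions. -/
inductive Name (p s : ℕ) : Type
  | tau : Fin p → Name p s
  | j : Fin p → Name p s
  | dj : Fin p → Name p s
  | ddj : Fin p → Name p s
  | w : Fin s → Name p s
  | exp : Fin s → Name p s

/-- The values `τ_i(z)`, `j(τ_i(z))`, `j'(τ_i(z))`, `j''(τ_i(z))` (complex derivatives of `j`), `w_k(z)`, `exp(w_k(z))`. -/
noncomputable def value {p s : ℕ} (τ : Fin p → ℂ → ℂ) (w : Fin s → ℂ → ℂ) (z : ℂ) : Name p s → ℂ
  | Name.tau i => τ i z
  | Name.j i => j (τ i z)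
  | Name.dj i => deriv j (τ i z)
  | Name.ddj i => deriv (deriv j) (τ i z)
  | Name.w k => w k z
  | Name.exp k => Complex.exp (w k z)

/-- An analytic curve in `ℍ^p × ℂ^s`. -/
structure Curve (U : Set ℂ) {p s : ℕ} (τ : Fin p → ℂ → ℂ) (w : Fin s → ℂ → ℂ) : Prop where
  pos : 0 < p
  isOpen : IsOpen U
  isPreconnected : IsPreconnected U
  nonempty : U.Nonempty
  analytic : ∀ i, AnalyticOnNhd ℂ (τ i) U
  im_pos : ∀ i, ∀ z ∈ U, 0 < (τ i z).im
  nonconstant : ∀ i, ∀ c : ℂ, ∃ z ∈ U, τ i z ≠ c
  /-- two of the functions `j(τ_i)` are algebraically independent over `ℂ` -/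
  independent : ∀ i k, i ≠ k → ∀ P : MvPolynomial (Fin 2) ℂ, P ≠ 0 →
    ∃ z ∈ U, MvPolynomial.eval ![j (τ i z), j (τ k z)] P ≠ 0
  analytic_w : ∀ k, AnalyticOnNhd ℂ (w k) U
  /-- no nontrivial combination of the `w_k` with integral coefficients is constant -/
  linear : ∀ m : Fin s → ℤ, m ≠ 0 → ∀ c : ℂ, ∃ z ∈ U, ∑ k, (m k : ℂ) * w k z ≠ c

theorem j_eq {τ : ℂ} (h : 0 < τ.im) : j τ = Pool.Agent.Y776.jf τ := by
  have h1 : Pool.Agent.Y685.LC τ = lattice τ h := by
    rw [Pool.Agent.Y685.LC, UpperHalfPlane.ofComplex_apply_of_im_pos h]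
    rfl
  rw [j, dif_pos h, Pool.Agent.Y776.jf, h1]

theorem j_ev {τ : ℂ} (h : 0 < τ.im) : j =ᶠ[nhds τ] Pool.Agent.Y776.jf := by
  filter_upwards [Pool.Agent.Y776.AxJ.isOpen_H.mem_nhds h] with σ hσ
  exact j_eq hσ

theorem dj_eq {τ : ℂ} (h : 0 < τ.im) : deriv j τ = deriv Pool.Agent.Y776.jf τ := (j_ev h).deriv_eq

theorem dj_ev {τ : ℂ} (h : 0 < τ.im) : deriv j =ᶠ[nhds τ] deriv Pool.Agent.Y776.jf := by
  filter_upwards [Pool.Agent.Y776.AxJ.isOpen_H.mem_nhds h] with σ hσ
  exact dj_eq hσ

theorem ddj_eq {τ : ℂ} (h : 0 < τ.im) : deriv (deriv j) τ = deriv (deriv Pool.Agent.Y776.jf) τ := (dj_ev h).deriv_eq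

theorem fmj {U : Set ℂ} {p s : ℕ} {τ : Fin p → ℂ → ℂ} {w : Fin s → ℂ → ℂ} (h : Curve U τ w) :
    Pool.Agent.Y776.AxJ.Fmj U τ w where
  op := h.isOpen
  conn := h.isPreconnected
  ne := h.nonempty
  ta := h.analytic
  im := h.im_pos
  nc := h.nonconstant
  ji := by
    intro i k hik P hP
    by_contra hne
    obtain ⟨z, hz, hz0⟩ := h.independent i k hik P hne
    apply hz0
    rw [← hP z hz]
    congr 2
    funext m
    fin_cases m
    · exact j_eq (h.im_pos i z hz)
    · exact j_eq (h.im_pos k z hz)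
  wa := h.analytic_w
  wi := by
    intro m c hc
    by_contra hm
    obtain ⟨z, hz, hne⟩ := h.linear m hm c
    exact hne (hc z hz)

/-- the names -/
def mn {p s : ℕ} : Name p s → Pool.Agent.Y776.AxJ.Nj p s := fun o => match o with
  | Name.tau i => Sum.inl (i, 0)
  | Name.j i => Sum.inl (i, 1)
  | Name.dj i => Sum.inl (i, 2)
  | Name.ddj i => Sum.inl (i, 3)
  | Name.w k => Sum.inr (Sum.inl k)
  | Name.exp k => Sum.inr (Sum.inr k)

/-- the names -/
def nm {p s : ℕ} : Pool.Agent.Y776.AxJ.Nj p s → Name p s := fun o => match o with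
  | Sum.inl (i, 0) => Name.tau i
  | Sum.inl (i, 1) => Name.j i
  | Sum.inl (i, 2) => Name.dj i
  | Sum.inl (i, 3) => Name.ddj i
  | Sum.inr (Sum.inl k) => Name.w k
  | Sum.inr (Sum.inr k) => Name.exp k

/-- the names -/
def eqv (p s : ℕ) : Pool.Agent.Y776.AxJ.Nj p s ≃ Name p s where
  toFun := nm
  invFun := mn
  left_inv := by
    rintro (⟨i, m⟩ | k | k)
    · fin_cases m <;> rfl
    · rfl
    · rfl
  right_inv := by
    rintro (i | i | i | i | i | i) <;> rfl

noncomputable instance (p s : ℕ) : Fintype (Name p s) := Fintype.ofEquiv _ (eqv p s)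

noncomputable instance (p s : ℕ) : DecidableEq (Name p s) := Classical.decEq _

theorem value_eq {U : Set ℂ} {p s : ℕ} {τ : Fin p → ℂ → ℂ} {w : Fin s → ℂ → ℂ} (h : Curve U τ w) {z : ℂ} (hz : z ∈ U)
    (o : Pool.Agent.Y776.AxJ.Nj p s) : value τ w z (nm o) = Pool.Agent.Y776.AxJ.yj τ w o z := by
  rcases o with ⟨i, m⟩ | k | k
  · fin_cases m
    · rfl
    · exact j_eq (h.im_pos i z hz)
    · exact dj_eq (h.im_pos i z hz)
    · exact ddj_eq (h.im_pos i z hz)
  · rfl
  · rfl

theorem value_an {U : Set ℂ} {p s : ℕ} {τ : Fin p → ℂ → ℂ} {w : Fin s → ℂ → ℂ} (h : Curve U τ w) (o : Name p s) :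
    AnalyticOnNhd ℂ (fun z => value τ w z o) U := by
  have h1 : nm (mn o) = o := (eqv p s).right_inv o
  refine (Pool.Agent.Y776.AxJ.yj_an (fmj h) (mn o)).congr h.isOpen fun z hz => ?_
  have h2 := value_eq h hz (mn o)
  rw [h1] at h2
  exact h2.symm

/-- `3 p + s` independent functions -/
theorem value_loc {U : Set ℂ} {p s : ℕ} {τ : Fin p → ℂ → ℂ} {w : Fin s → ℂ → ℂ} (h : Curve U τ w) :
    ∃ e : Fin (3 * p + s) → Name p s, Function.Injective e ∧
      ∀ t ∈ U, Pool.Agent.Y124.LocInd (fun k z => value τ w z (e k)) t := by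
  obtain ⟨e, he, hL⟩ := Pool.Agent.Y776.AxJ.exists_loc (fmj h) h.pos
  refine ⟨fun k => nm (e k), (eqv p s).injective.comp he, fun t ht P hP => hL t ht P ?_⟩
  filter_upwards [hP, h.isOpen.mem_nhds ht] with z hz hzU
  rw [← hz]
  congr 2
  funext o
  rcases o with _ | k
  · rfl
  · exact (value_eq h hzU (e k)).symm

/-- quotients of two integers of `K`, all conjugates of which are at most `T` -/
def HeightLe (K : Type) [Field K] [NumberField K] (T : ℝ) (x : K) : Prop :=
  ∃ a b : 𝓞 K, b ≠ 0 ∧ house (a : K) ≤ T ∧ house (b : K) ≤ T ∧ x = a / b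

/-- for a number field `K` embedded into `ℂ` by `io`: the partial degrees of `P` are at most `k`, and its coefficients are
`∑ ξ i * c i`, `i < k`, where the `c i` are integers of `K`, all conjugates of which are at most `T ^ k` -/
def Small {σ : Type} (K : Type) [Field K] [NumberField K] (io : K →+* ℂ) (k : ℕ) (ξ : ℕ → ℂ) (T : ℝ)
    (P : MvPolynomial σ ℂ) : Prop :=
  (∀ y, P.degreeOf y ≤ k) ∧ ∀ m, ∃ c : Fin k → 𝓞 K, (∀ i (φ : K →+* ℂ), ‖φ (c i : K)‖ ≤ T ^ (k : ℝ)) ∧
    P.coeff m = ∑ i : Fin k, ξ i * io (c i : K)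

/-- At all points `s` with coordinates in the number field `K` (embedded into `ℂ` by `io`) of height at most `T` and with
`|s i - z i| ≤ T ^ (-w)` for all `i`, no nonzero small polynomial vanishes at the numbers `v a s`. -/
def NoRelationNear {X S : Type} (v : S → (X → ℂ) → ℂ) (ξ : ℕ → ℂ) (z : X → ℂ) (w : ℝ) (K : Type) [Field K]
    [NumberField K] (io : K →+* ℂ) (k : ℕ) (T : ℝ) : Prop :=
  ∀ s : X → K, (∀ i, HeightLe K T (s i)) → (∀ i, ‖io (s i) - z i‖ ≤ T ^ (-w)) →
    ∀ P : MvPolynomial S ℂ, Small K io k ξ T P →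
      MvPolynomial.eval (fun a => v a fun i => io (s i)) P = 0 → P = 0

/-- The numbers `v a s` are independent in bounded degree and height at ALL algebraic points `s` near almost every point of
`U`, `d` being the number of coordinates:
(1) there is a set `E` in `ℂ ^ d` of Hausdorff dimension at most `2 (d - 1)` such that for all `z ∈ U` outside of `E`, all
`w > 0`, all number fields `K ⊂ ℂ` and all `k`, `NoRelationNear v ξ z w K k T` holds for all large `T`;
(2) there is a set `E` in `ℝ ^ d` of dimension at most `d - 1` such that the same is true for all real `z ∈ U` outside of `E`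
and all number fields `K ⊂ ℝ`. -/
def IndependentNearAlmostAll {X S : Type} [Fintype X] (U : Set (X → ℂ)) (v : S → (X → ℂ) → ℂ) (ξ : ℕ → ℂ) : Prop :=
  (∃ E : Set (X → ℂ), dimH E ≤ ((2 * (Fintype.card X - 1) : ℕ) : ℝ≥0∞) ∧ ∀ z ∈ U, z ∉ E → ∀ w : ℝ, 0 < w →
    ∀ (K : IntermediateField ℚ ℂ) [NumberField K] (k : ℕ), ∀ᶠ T : ℝ in atTop,
      NoRelationNear v ξ z w K (algebraMap K ℂ) k T) ∧
  ∃ E : Set (X → ℝ), dimH E ≤ ((Fintype.card X - 1 : ℕ) : ℝ≥0∞) ∧
    ∀ z : X → ℝ, (fun i => (z i : ℂ)) ∈ U → z ∉ E → ∀ w : ℝ, 0 < w →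
    ∀ (K : IntermediateField ℚ ℝ) [NumberField K] (k : ℕ), ∀ᶠ T : ℝ in atTop,
      NoRelationNear v ξ (fun i => (z i : ℂ)) w K (Complex.ofRealHom.comp (algebraMap K ℝ)) k T

section
variable {κ : Type} [Fintype κ] {p s : κ → ℕ}

/-- the product of the domains -/
def domain (U : κ → Set ℂ) : Set (κ → ℂ) := {z | ∀ c, z c ∈ U c}

/-- the functions in `A c`, for all curves `c` together, as functions of the tuple `z` -/
noncomputable def values (τ : ∀ c, Fin (p c) → ℂ → ℂ) (w : ∀ c, Fin (s c) → ℂ → ℂ) (A : ∀ c, Finset (Name (p c) (s c)))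
    (a : Σ c, A c) (z : κ → ℂ) : ℂ := value (τ a.1) (w a.1) (z a.1) a.2.1

/-- Let `(τ_c, w_c)`, `c` in a finite nonempty set, be analytic curves in `ℍ^(p_c) × ℂ^(s_c)`. There are sets `A_c` of
`3 p_c + s_c` of the `4 p_c + 2 s_c` functions such that for all complex numbers `ξ i` the `∑ (3 p_c + s_c)` numbers given by
the sets `A_c` are independent in bounded degree and height at ALL tuples of algebraic points near every tuple outside of a
set of dimension at most `2 (d - 1)` (complex points), `d - 1` (real points), `d` the number of the curves: see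
`IndependentNearAlmostAll`. -/
theorem result [Nonempty κ] [DecidableEq κ] (U : κ → Set ℂ) (τ : ∀ c, Fin (p c) → ℂ → ℂ) (w : ∀ c, Fin (s c) → ℂ → ℂ)
    (hC : ∀ c, Curve (U c) (τ c) (w c)) :
    ∃ A : ∀ c, Finset (Name (p c) (s c)), (∀ c, (A c).card = 3 * p c + s c) ∧ ∀ ξ : ℕ → ℂ,
      IndependentNearAlmostAll (domain U) (values τ w A) ξ := by
  classical
  choose e he1 he2 using fun c => value_loc (hC c)
  choose A hA1 hA2 using fun c => Pool.Agent.V11273.PV.ind_of_loc (N := Name (p c) (s c))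
    (y := fun v z => value (τ c) (w c) z v) (hC c).isOpen (hC c).nonempty (he1 c) (he2 c)
  refine ⟨A, hA1, fun ξ => ?_⟩
  have hind := Pool.Agent.V11273.PV.indep_curves (U := U) (S := fun c => A c)
    (y := fun c (a : A c) z => value (τ c) (w c) z a.1) hA2
  have hUc : IsPreconnected (Pool.Agent.V11273.PV.UC U) := by
    rw [Pool.Agent.V11273.PV.UC_eq]
    exact isPreconnected_univ_pi fun c => (hC c).isPreconnected
  have hUo : IsOpen (Pool.Agent.V11273.PV.UC U) := by
    rw [Pool.Agent.V11273.PV.UC_eq]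
    exact isOpen_set_pi Set.finite_univ fun c _ => (hC c).isOpen
  have hUn : (Pool.Agent.V11273.PV.UC U).Nonempty := ⟨fun c => (hC c).nonempty.some, fun c => (hC c).nonempty.some_mem⟩
  have han : ∀ a : Σ c, A c, AnalyticOnNhd ℂ (Pool.Agent.V11273.PV.fC
      (fun c (a : A c) z => value (τ c) (w c) z a.1) a) (Pool.Agent.V11273.PV.UC U) := by
    intro v z hz
    exact AnalyticAt.fun_comp (g := fun z => value (τ v.1) (w v.1) z v.2.1) (f := fun z : κ → ℂ => z v.1)
      (value_an (hC v.1) v.2.1 (z v.1) (hz v.1))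
      ((ContinuousLinearMap.proj (R := ℂ) (φ := fun _ : κ => ℂ) v.1).analyticAt z)
  exact Pool.Agent.Helper264.NT.near_two (S := Σ c, A c)
    (f := Pool.Agent.V11273.PV.fC (fun c (a : A c) z => value (τ c) (w c) z a.1)) hUc hUo hUn han hind ξ

end

end Pool.Agent.Results.MP_5e64e7_nt.NearEveryPointAllCurves
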