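import Pool.Agent.Results.MP_5e64e7_nt.AlmostAllRationalNomes
import Pool.Agent.V11300.PA.Rat

/-!
# Values of `j`, `j'`, `j''` at the points `log q / (2πi)` for ALL the rational numbers `q` near almost every `p`-adic point

Let `[a, b] ⊂ (0, 1)`, `p` a prime number and `κ > 0`. For all `α ∈ ℚ_p ^ n` outside of a set of Hausdorff dimension at most
`κ (2 n - 2 / ((d + 1) ^ (4 n + 1) + 1))` and all `A` there are `B`, `m₀` such that for all `m ≥ m₀`, with `T = p ^ (κ m)`, and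
ALL the `n`-tuples `q` of rational numbers in `[a, b]` with denominators at most `T` and `|q_j - α_j|_p ≤ p ^ (-m)`: every
nonzero integral polynomial with coefficients at most `T ^ A`, of degree at most `d` in each variable, has an absolute value
larger than `T ^ (-B)` at the `4 n + 1` numbers `π`, `log q_k`, `j (z_k)`, `D j (z_k)`, `D² j (z_k)`, `z_k = log q_k / (2πi)`.
The definitions `numbers`, `Exceptional` are those of the starting file `AlmostAllRationalNomes`.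
-/

set_option autoImplicit false

open Filter Topology

namespace Pool.Agent.Results.MP_5e64e7_nt.PadicNeighbourhoods

open AlmostAllRationalNomes (Exceptional numbers)

/-- **Theorem.** -/
theorem result (n d : ℕ) (hn : 1 ≤ n) (a b : ℝ) (ha : 0 < a) (hab : a < b) (hb : b < 1)
    (p : ℕ) [Fact p.Prime] (κ : ℝ) (hκ : 0 < κ) :
    ∃ E : Set (Fin n → ℚ_[p]), dimH E ≤ ENNReal.ofReal (κ * (2 * n - 2 / (((d : ℝ) + 1) ^ (4 * n + 1) + 1))) ∧
      ∀ α : Fin n → ℚ_[p], α ∉ E → ∀ A : ℕ, ∃ (B : ℝ) (m₀ : ℕ), ∀ m : ℕ, m₀ ≤ m → ∀ q : Fin n → ℚ,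
        (∀ j, a ≤ q j ∧ q j ≤ b ∧ ((q j).den : ℝ) ≤ (p : ℝ) ^ (κ * m)) →
        (∀ j, ‖((q j : ℚ) : ℚ_[p]) - α j‖ ≤ (p : ℝ) ^ (-(m : ℝ))) →
        ∀ P : MvPolynomial (Option (Fin n × Fin 4)) ℤ, P ≠ 0 → (∀ x, P.degreeOf x ≤ d) →
          (∀ s, |((P.coeff s : ℤ) : ℝ)| ≤ ((p : ℝ) ^ (κ * m)) ^ (A : ℝ)) →
          ((p : ℝ) ^ (κ * m)) ^ (-B) < ‖MvPolynomial.aeval (numbers q) P‖ := by
  obtain ⟨E, h1, h2⟩ := Pool.Agent.V11300.PA.rational_points p hn (Pool.Agent.V11300.PA.beta_nonneg d (4 * n + 1)) hκ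
    (fun A B T => Exceptional n d a b A B T) (fun A β hA hβ => AlmostAllRationalNomes.result n d hn a b ha hab hb A β hA hβ)
  refine ⟨E, ?_, fun α hα A => ?_⟩
  · have e : (2 * n - 2 / (((d : ℝ) + 1) ^ (4 * n + 1) + 1) : ℝ) =
        2 * ((n : ℝ) - 1) + (2 - 2 / (((d : ℝ) + 1) ^ (4 * n + 1) + 1)) := by ring
    rw [e]
    exact h1
  · obtain ⟨B, m₀, h⟩ := h2 α hα A
    refine ⟨B, m₀, fun m hm q hq hd P hP0 hPd hPc => ?_⟩
    by_contra hcon
    rw [not_lt] at hcon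
    exact h m hm q hd ⟨hq, P, hP0, hPd, hPc, hcon⟩

end Pool.Agent.Results.MP_5e64e7_nt.PadicNeighbourhoods
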